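import Pool.Agent.Helper75.FU.StG
import Pool.Agent.Helper58.GU.M_B5

/-!
# Project FU, module G1: lemma U for the natural family of G0
-/

set_option autoImplicit false

namespace Pool.Agent.Helper12.FU

open Pool.Agent.Helper75.FU Pool.Agent.Helper91.GU
open Pool.Agent.Helper58.GU
open Polynomial

universe u

section basic

variable {A : Type u} [CommRing A] {B : Type u} [CommRing B] {r : ℕ}

/-- the matrix with first row `(a; c)` and the identity below -/
def VfM (a : A) (c : Fin r → A) : Mt A r :=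
  Matrix.fromBlocks (fun _ _ => a) (fun _ j => c j) 0 1

theorem VfM_row (a : A) (c : Fin r → A) : (VfM a c) (Sum.inl ()) = row a c := by
  ext j
  rcases j with j | j
  · rfl
  · rfl

theorem VfM_det (a : A) (c : Fin r → A) : (VfM a c).det = a := by
  unfold VfM
  rw [Matrix.det_fromBlocks_zero₂₁]
  simp

theorem rho_VfM (φ : A →+* B) (a : A) (c : Fin r → A) (t : Fin r → B) :
    rho ((VfM a c).map φ * (lowU t * upV (mp φ c))) = theta (mp φ c) t := by
  unfold rho
  rw [VfM, lowU, upV, Matrix.fromBlocks_map, Matrix.fromBlocks_multiply,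
    Matrix.fromBlocks_multiply, Matrix.toBlocks_fromBlocks₂₂, theta]
  ext i j
  simp [Matrix.mul_apply, Matrix.vecMulVec_apply, add_comm]

end basic

section core

variable {C C' : Type u} [CommRing C] [CommRing C'] (φ : C →+* C') (s : ℕ) (w : C)
  (c0 : Fin (s + 1) → C)
  (σ : ∀ (D : Type u) [CommRing D], D → (Fin (s + 1) → D) → D →
    (Fin (s + 1) → D) → Matrix (Unit ⊕ Fin (s + 1)) (Unit ⊕ Fin (s + 1)) D)

theorem coreG (m : ℕ) (hσ1 : ∀ (D : Type u) [CommRing D] (w : D) (c : Fin (s + 1) → D) (a' : D)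
      (z : Fin (s + 1) → D), w * a' + c ⬝ᵥ z = 1 →
      (σ D w c a' z).det = 1 ∧ (σ D w c a' z) (Sum.inl ()) = row (w ^ m) c)
    (hσ2 : ∀ (D D' : Type u) [CommRing D] [CommRing D'] (ψ : D →+* D') (w : D)
      (c : Fin (s + 1) → D) (a' : D) (z : Fin (s + 1) → D),
      (σ D w c a' z).map ψ = σ D' (ψ w) (mp ψ c) (ψ a') (mp ψ z))
    (hB0 : StB0.{u}) (hω : IsUnit w) (z : Fin (s + 1) → C') (hz : mp φ c0 ⬝ᵥ z = 1) :
    ∃ (δ : Matrix (Fin (s + 1)) (Fin (s + 1)) C) (k : Matrix (Fin (s + 1)) (Fin (s + 1)) C'),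
      IsUnit δ.det ∧ HId k ∧
      theta (mp φ c0) ((φ w ^ m - 1) • z) = δ.map φ * k := by
  obtain ⟨ωu, hωu⟩ := hω
  set ωi : C := ((ωu⁻¹ : Cˣ) : C) with hωi
  have hωωi : w * ωi = 1 := by rw [← hωu]; simp [hωi]
  set c : Fin (s + 1) → C' := mp φ c0 with hc
  set t : Fin (s + 1) → C' := (φ w ^ m - 1) • z with htd
  have ht : c ⬝ᵥ t = φ w ^ m - 1 := by
    rw [htd, dotProduct_smul, hz, smul_eq_mul, mul_one]
  -- the matrices over `C`
  set sf : Mt C (s + 1) := σ C w c0 ωi 0 with hsf
  have sf1 := hσ1 C w c0 ωi 0 (by simp [hωωi])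
  set k0c : Mt C (s + 1) := σ C 1 c0 1 0 * upV c0 with hk0c
  have s11 := hσ1 C 1 c0 1 0 (by simp)
  set Vf : Mt C (s + 1) := VfM (w ^ m) c0 with hVf
  have Vf1 : Vf (Sum.inl ()) = row (w ^ m) c0 := VfM_row _ _
  have Vfdet : Vf.det = w ^ m := VfM_det _ _
  have sfu : IsUnit sf.det := by rw [sf1.1]; exact isUnit_one
  have k0cdet : k0c.det = 1 := by rw [hk0c, Matrix.det_mul, s11.1, det_upV, one_mul]
  have k0cF : F1 k0c := by
    unfold F1
    rw [hk0c, frow_mul, s11.2, one_pow, vecMul_upV, ← row_one_zero]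
    congr 1
    ext j
    simp
  have VsF : F1 (Vf * sf⁻¹) := F1_of_same (Vf1.trans sf1.2.symm) sfu
  -- the matrices over `C'`
  set Si : Mt C' (s + 1) := σ C' (φ w) c 0 z with hSi
  have Si1 := hσ1 C' (φ w) c 0 z (by rw [mul_zero, zero_add, hz])
  set W1 : Mt C' (s + 1) := lowU t * upV c with hW1
  set K0 : Mt C' (s + 1) := σ C' 1 c 0 z * upV c with hK0
  have s10 := hσ1 C' 1 c 0 z (by rw [mul_zero, zero_add, hz])
  have K0F : F1 K0 := by
    unfold F1
    rw [hK0, frow_mul, s10.2, one_pow, vecMul_upV, ← row_one_zero]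
    congr 1
    ext j
    simp
  have K0u : IsUnit K0.det := by
    rw [hK0, Matrix.det_mul, s10.1, det_upV, one_mul]; exact isUnit_one
  have Siu : IsUnit Si.det := by rw [Si1.1]; exact isUnit_one
  set B : Mt C' (s + 1) := sf.map φ with hB
  have hB' : B = σ C' (φ w) c (φ ωi) 0 := by
    rw [hB, hsf, hσ2]
    congr 1
    ext j
    simp [mp]
  have Bu : IsUnit B.det := by rw [hB, det_map', sf1.1, map_one]; exact isUnit_one
  have B1 : B (Sum.inl ()) = row (φ w ^ m) c := by
    rw [hB']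
    rw [(hσ1 C' (φ w) c (φ ωi) 0 (by simp [← map_mul, hωωi])).2]
  have SiF : Si (Sum.inl ()) = row (φ w ^ m) c := Si1.2
  set A : Mt C' (s + 1) := Vf.map φ with hA
  set K0' : Mt C' (s + 1) := k0c.map φ with hK0'
  have hK0'' : K0' = σ C' 1 c 1 0 * upV c := by
    rw [hK0', hk0c, Matrix.map_mul, hσ2, map_upV]
    congr 1
    simp only [map_one]
    congr 1
    ext j
    simp [mp]
  have K0'u : IsUnit K0'.det := by
    rw [hK0', det_map', k0cdet, map_one]; exact isUnit_one
  have K0'F : F1 K0' := F1_map φ k0cF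
  have SWF : F1 (Si * W1) := by
    unfold F1
    rw [frow_mul, SiF, hW1, ← Matrix.vecMul_vecMul, vecMul_lowU, vecMul_upV, ← row_one_zero, ht]
    congr 1
    · ring
    · ext j
      simp
  -- theta as a lower right block
  have hth : rho (A * W1) = theta c t := rho_VfM φ (w ^ m) c0 t
  -- factorisation
  have hfac : A * W1 = (A * B⁻¹) * ((B * Si⁻¹) * ((Si * W1 * K0⁻¹) * ((K0 * K0'⁻¹) * K0'))) := by
    rw [Matrix.mul_assoc K0, Matrix.nonsing_inv_mul _ K0'u, Matrix.mul_one,
      Matrix.mul_assoc (Si * W1), Matrix.nonsing_inv_mul _ K0u, Matrix.mul_one,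
      Matrix.mul_assoc B, ← Matrix.mul_assoc Si⁻¹, Matrix.nonsing_inv_mul _ Siu, Matrix.one_mul,
      Matrix.mul_assoc A, ← Matrix.mul_assoc B⁻¹, Matrix.nonsing_inv_mul _ Bu, Matrix.one_mul]
  have F2 : F1 (B * Si⁻¹) := F1_of_same (by rw [B1, SiF]) Siu
  have F3 : F1 (Si * W1 * K0⁻¹) := F1_mul SWF (F1_inv K0F K0u)
  have F4 : F1 (K0 * K0'⁻¹) := F1_mul K0F (F1_inv K0'F K0'u)
  have hprod : theta c t = rho (A * B⁻¹) *
      ((rho (B * Si⁻¹) * rho (Si * W1 * K0⁻¹) * rho (K0 * K0'⁻¹)) * rho K0') := by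
    rw [← hth, hfac, rho_mul _ (F1_mul F2 (F1_mul F3 (F1_mul F4 K0'F))),
      rho_mul _ (F1_mul F3 (F1_mul F4 K0'F)), rho_mul _ (F1_mul F4 K0'F), rho_mul _ K0'F]
    simp only [Matrix.mul_assoc]
  -- paths
  have hXC0 : ∀ x : C', evalRingHom (0 : C') (Polynomial.C x) = x := fun x => by simp
  have hXC1 : ∀ x : C', evalRingHom (1 : C') (Polynomial.C x) = x := fun x => by simp
  have mpC0 : ∀ {n : Type} (v : n → C'), mp (evalRingHom (0 : C')) (mp Polynomial.C v) = v := by
    intro n v; ext j; simp [mp]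
  have mpC1 : ∀ {n : Type} (v : n → C'), mp (evalRingHom (1 : C')) (mp Polynomial.C v) = v := by
    intro n v; ext j; simp [mp]
  have mapC0 : ∀ M : Mt C' (s + 1), (M.map (Polynomial.C : C' →+* C'[X])).map
      (evalRingHom (0 : C')) = M := by
    intro M; ext i j; simp
  have mapC1 : ∀ M : Mt C' (s + 1), (M.map (Polynomial.C : C' →+* C'[X])).map
      (evalRingHom (1 : C')) = M := by
    intro M; ext i j; simp
  have detC : ∀ M : Mt C' (s + 1), IsUnit M.det →
      IsUnit (M.map (Polynomial.C : C' →+* C'[X])).det := by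
    intro M hM; rw [det_map']; exact hM.map _
  have hzC : ∀ p : C'[X], mp (Polynomial.C : C' →+* C'[X]) c ⬝ᵥ
      (p • mp (Polynomial.C : C' →+* C'[X]) z) = p := by
    intro p
    rw [dotProduct_smul]
    have : mp (Polynomial.C : C' →+* C'[X]) c ⬝ᵥ mp Polynomial.C z = 1 := by
      have := congrArg (Polynomial.C : C' →+* C'[X]) hz
      rw [map_one, dotProduct, map_sum] at this
      rw [← this]
      simp [dotProduct, mp]
    rw [this, smul_eq_mul, mul_one]
  -- second factor
  have H2 : HId (rho (B * Si⁻¹)) := by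
    set S : Mt C'[X] (s + 1) := σ C'[X] (Polynomial.C (φ w)) (mp Polynomial.C c)
      (X * Polynomial.C (φ ωi)) ((1 - X : C'[X]) • mp Polynomial.C z) with hS
    have hS1 := hσ1 C'[X] (Polynomial.C (φ w)) (mp Polynomial.C c)
      (X * Polynomial.C (φ ωi))
      ((1 - X : C'[X]) • mp Polynomial.C z) (by
        rw [hzC]
        have : (Polynomial.C (φ w) : C'[X]) * Polynomial.C (φ ωi) = 1 := by
          rw [← Polynomial.C_mul, ← map_mul, hωωi, map_one, Polynomial.C_1]
        linear_combination (X : C'[X]) * this)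
    have key := hid_of_path (S * (Si.map (Polynomial.C : C' →+* C'[X]))⁻¹)
      (F1_of_same (by
        refine hS1.2.trans ?_
        ext j
        have := congrFun SiF j
        rw [Matrix.map_apply, this]
        rcases j with j | j
        · simp [row]
        · simp [row, mp]) (detC _ Siu))
      (by
        rw [Matrix.det_mul, hS1.1, one_mul]
        exact (Matrix.isUnit_nonsing_inv_det_iff).2 (detC _ Siu))
      (by
        rw [← map_inv' _ _ Siu, Matrix.map_mul, mapC0, hσ2]
        simp only [hXC0, mpC0, map_mul]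
        have : σ C' (φ w) c (evalRingHom (0 : C') X * φ ωi)
            (mp (evalRingHom (0 : C')) ((1 - X : C'[X]) • mp Polynomial.C z)) = Si := by
          rw [hSi]
          congr 1
          · simp
          · ext j; simp [mp]
        rw [this, Matrix.mul_nonsing_inv _ Siu])
    have e : (S * (Si.map (Polynomial.C : C' →+* C'[X]))⁻¹).map (evalRingHom (1 : C')) =
        B * Si⁻¹ := by
      rw [← map_inv' _ _ Siu, Matrix.map_mul, mapC1, hσ2]
      simp only [hXC1, mpC1, map_mul]
      congr 1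
      rw [hB']
      congr 1
      · simp
      · ext j; simp [mp]
    rwa [e] at key
  -- third factor
  have H3 : HId (rho (Si * W1 * K0⁻¹)) := by
    set wX : C'[X] := 1 + X * Polynomial.C (φ w - 1) with hwX
    have w0 : evalRingHom (0 : C') wX = 1 := by rw [hwX]; simp
    have w1 : evalRingHom (1 : C') wX = φ w := by rw [hwX]; simp
    set S : Mt C'[X] (s + 1) := σ C'[X] wX (mp Polynomial.C c) 0 (mp Polynomial.C z) with hS
    have hS1 := hσ1 C'[X] wX (mp Polynomial.C c) 0 (mp Polynomial.C z) (by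
        have := hzC 1
        rw [one_smul] at this
        rw [this, mul_zero, zero_add])
    have hctX := hzC (wX ^ m - 1)
    have key := hid_of_path (S * (lowU ((wX ^ m - 1 : C'[X]) • mp Polynomial.C z) *
        upV (mp Polynomial.C c)) * (K0.map (Polynomial.C : C' →+* C'[X]))⁻¹)
      (by
        apply F1_mul _ (F1_inv (F1_map _ K0F) (detC _ K0u))
        unfold F1
        rw [frow_mul]
        refine (congrArg (fun v => Matrix.vecMul v
          (lowU ((wX ^ m - 1 : C'[X]) • mp Polynomial.C z) *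
          upV (mp Polynomial.C c))) hS1.2).trans ?_
        show Matrix.vecMul (row _ _) _ = _
        rw [← Matrix.vecMul_vecMul, vecMul_lowU, vecMul_upV,
          ← row_one_zero, hctX]
        congr 1
        · ring
        · ext j
          simp)
      (by
        rw [Matrix.det_mul, Matrix.det_mul, Matrix.det_mul, hS1.1, det_lowU, det_upV, one_mul,
          one_mul, one_mul]
        exact (Matrix.isUnit_nonsing_inv_det_iff).2 (detC _ K0u))
      (by
        rw [← map_inv' _ _ K0u, Matrix.map_mul, Matrix.map_mul, Matrix.map_mul, mapC0, hσ2,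
          map_lowU, map_upV, mpC0]
        simp only [mpC0]
        have e1 : mp (evalRingHom (0 : C')) ((wX ^ m - 1 : C'[X]) • mp Polynomial.C z) = 0 := by
          ext j
          have : evalRingHom (0 : C') ((wX ^ m - 1) * Polynomial.C (z j)) = 0 := by
            rw [map_mul, map_sub, map_pow, w0, one_pow, map_one, sub_self, zero_mul]
          exact this
        rw [e1, w0, lowU_zero, one_mul, map_zero, ← hK0, Matrix.mul_nonsing_inv _ K0u])
    have e : (S * (lowU ((wX ^ m - 1 : C'[X]) • mp Polynomial.C z) *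
        upV (mp Polynomial.C c)) * (K0.map (Polynomial.C : C' →+* C'[X]))⁻¹).map
        (evalRingHom (1 : C')) = Si * W1 * K0⁻¹ := by
      rw [← map_inv' _ _ K0u, Matrix.map_mul, Matrix.map_mul, Matrix.map_mul, mapC1, hσ2,
          map_lowU, map_upV, mpC1]
      simp only [mpC1]
      have e1 : mp (evalRingHom (1 : C')) ((wX ^ m - 1 : C'[X]) • mp Polynomial.C z) = t := by
        ext j
        have : evalRingHom (1 : C') ((wX ^ m - 1) * Polynomial.C (z j)) = t j := by
          rw [map_mul, map_sub, map_pow, w1, map_one, hXC1, htd]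
          simp
        exact this
      rw [e1, w1, map_zero, hSi, hW1]
    rwa [e] at key
  -- fourth factor
  have H4 : HId (rho (K0 * K0'⁻¹)) := by
    set S : Mt C'[X] (s + 1) := σ C'[X] 1 (mp Polynomial.C c) (1 - X)
      ((X : C'[X]) • mp Polynomial.C z) with hS
    have hS1 := hσ1 C'[X] 1 (mp Polynomial.C c) (1 - X) ((X : C'[X]) • mp Polynomial.C z) (by
        rw [hzC]; ring)
    have key := hid_of_path (S * upV (mp Polynomial.C c) *
        (K0'.map (Polynomial.C : C' →+* C'[X]))⁻¹)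
      (by
        apply F1_mul _ (F1_inv (F1_map _ K0'F) (detC _ K0'u))
        unfold F1
        rw [frow_mul]
        refine (congrArg (fun v => Matrix.vecMul v (upV (mp Polynomial.C c))) hS1.2).trans ?_
        show Matrix.vecMul (row _ _) _ = _
        rw [one_pow, vecMul_upV, ← row_one_zero]
        congr 1
        ext j
        simp)
      (by
        rw [Matrix.det_mul, Matrix.det_mul, hS1.1, det_upV, one_mul, one_mul]
        exact (Matrix.isUnit_nonsing_inv_det_iff).2 (detC _ K0'u))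
      (by
        rw [← map_inv' _ _ K0'u, Matrix.map_mul, Matrix.map_mul, mapC0, hσ2, map_upV, mpC0]
        have e1 : mp (evalRingHom (0 : C')) ((X : C'[X]) • mp Polynomial.C z) = 0 := by
          ext j; simp [mp]
        have e2 : evalRingHom (0 : C') (1 - X) = 1 := by simp
        rw [e1, e2, map_one, ← hK0'', Matrix.mul_nonsing_inv _ K0'u])
    have e : (S * upV (mp Polynomial.C c) *
        (K0'.map (Polynomial.C : C' →+* C'[X]))⁻¹).map (evalRingHom (1 : C')) = K0 * K0'⁻¹ := by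
      rw [← map_inv' _ _ K0'u, Matrix.map_mul, Matrix.map_mul, mapC1, hσ2, map_upV, mpC1]
      have e1 : mp (evalRingHom (1 : C')) ((X : C'[X]) • mp Polynomial.C z) = z := by
        ext j; simp [mp]
      have e2 : evalRingHom (1 : C') (1 - X) = 0 := by simp
      rw [e1, e2, map_one, hK0]
    rwa [e] at key
  -- conclusion
  have hb := hB0 C' C' (RingHom.id C') (Fin (s + 1))
  have Hk := hb.1 _ _ (hb.1 _ _ H2 H3) H4
  have hδ2u : IsUnit (rho K0').det := by rw [det_rho K0'F]; exact K0'u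
  refine ⟨rho (Vf * sf⁻¹) * rho k0c, (rho K0')⁻¹ *
    (rho (B * Si⁻¹) * rho (Si * W1 * K0⁻¹) * rho (K0 * K0'⁻¹)) * rho K0', ?_,
    (hb.2.2.2.1 _ _ Hk hδ2u).2, ?_⟩
  · rw [Matrix.det_mul, det_rho VsF, det_rho k0cF, k0cdet, mul_one, Matrix.det_mul, Vfdet]
    refine IsUnit.mul (IsUnit.pow m ⟨ωu, hωu⟩) ?_
    exact (Matrix.isUnit_nonsing_inv_det_iff).2 sfu
  · have e1 : (rho (Vf * sf⁻¹)).map φ = rho (A * B⁻¹) := by
      rw [rho_map, Matrix.map_mul, map_inv' _ _ sfu]
    have e2 : (rho k0c).map φ = rho K0' := rho_map _ _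
    rw [Matrix.map_mul, e1, e2, hprod]
    simp only [Matrix.mul_assoc]
    rw [← Matrix.mul_assoc (rho K0') (rho K0')⁻¹, Matrix.mul_nonsing_inv _ hδ2u, Matrix.one_mul]

end core

theorem hG1 (hB0 : StB0.{u}) (hB3 : StB3.{u}) (hG0 : StG0.{u}) : StG1.{u} := by
  intro C C' _ _ φ s w c hw hum t ht
  obtain ⟨σ, hσ1, hσ2⟩ := hG0 s
  obtain ⟨z, hz⟩ := hum
  obtain ⟨δ, k, hδ, hk, hth⟩ := coreG φ s w c σ (s + 1).factorial hσ1 hσ2 hB0 hw z hz
  have hu : IsUnit (φ w ^ (s + 1).factorial) := (hw.map φ).pow _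
  have ht1 : mp φ c ⬝ᵥ ((φ w ^ (s + 1).factorial - 1) • z) = φ w ^ (s + 1).factorial - 1 := by
    rw [dotProduct_smul, hz, smul_eq_mul, mul_one]
  obtain ⟨k', hk', e⟩ := (hB3 C' (s + 1) (mp φ c) ((φ w ^ (s + 1).factorial - 1) • z) t
    (φ w ^ (s + 1).factorial) hu ht1).2.1 ht
  have hb := hB0 C' C' (RingHom.id C') (Fin (s + 1))
  have hδ' : IsUnit (δ.map φ).det := by rw [det_map']; exact hδ.map φ
  refine ⟨δ, ((δ.map φ)⁻¹ * k' * δ.map φ) * k, hδ, hb.1 _ _ (hb.2.2.2.1 _ _ hk' hδ').2 hk, ?_⟩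
  rw [e, hth]
  simp only [Matrix.mul_assoc]
  rw [← Matrix.mul_assoc (δ.map φ) (δ.map φ)⁻¹, Matrix.mul_nonsing_inv _ hδ', Matrix.one_mul]

end Pool.Agent.Helper12.FU
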